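import Pool.Agent.Zk8.TH.Poly

namespace Pool.Agent.Zk8.TH

open Set

/-- The ten polygonal trees: one tripod and nine arcs. -/
def tree : Fin 10 → Poly := ![
  ⟨4, ![(24, 19), (25, 20), (-38, -35), (-53, 31)], [(0, 1), (0, 2), (0, 3)]⟩,
  ⟨2, ![(29, 20), (10, 21)], [(0, 1)]⟩,
  ⟨4, ![(29, 20), (54, 14), (-54, 54), (-53, 31)], [(0, 1), (1, 2), (2, 3)]⟩,
  ⟨2, ![(29, 20), (-52, -46)], [(0, 1)]⟩,
  ⟨2, ![(10, 21), (50, 15)], [(0, 1)]⟩,
  ⟨3, ![(10, 21), (-54, -54), (-53, 34)], [(0, 1), (1, 2)]⟩,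
  ⟨2, ![(50, 15), (-53, 34)], [(0, 1)]⟩,
  ⟨3, ![(25, 20), (35, 21), (-52, -46)], [(0, 1), (1, 2)]⟩,
  ⟨2, ![(54, 45), (-52, -46)], [(0, 1)]⟩,
  ⟨2, ![(-38, -35), (54, 45)], [(0, 1)]⟩]

/-- The nine points. -/
def points : Finset ZP :=
  {(29, 20), (25, 20), (-38, -35), (10, 21), (-53, 31), (54, 45), (50, 15), (-53, 34), (-52, -46)}

/-- The segments. -/
def sgs : Fin 10 → List Seg := ![
  [((24, 19), (25, 20)), ((24, 19), (-38, -35)), ((24, 19), (-53, 31))],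
  [((29, 20), (10, 21))],
  [((29, 20), (54, 14)), ((54, 14), (-54, 54)), ((-54, 54), (-53, 31))],
  [((29, 20), (-52, -46))],
  [((10, 21), (50, 15))],
  [((10, 21), (-54, -54)), ((-54, -54), (-53, 34))],
  [((50, 15), (-53, 34))],
  [((25, 20), (35, 21)), ((35, 21), (-52, -46))],
  [((54, 45), (-52, -46))],
  [((-38, -35), (54, 45))]]

/-- The leaves. -/
def lvs : Fin 10 → List ZP := ![
  [(25, 20), (-38, -35), (-53, 31)],
  [(29, 20), (10, 21)],
  [(29, 20), (-53, 31)],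
  [(29, 20), (-52, -46)],
  [(10, 21), (50, 15)],
  [(10, 21), (-53, 34)],
  [(50, 15), (-53, 34)],
  [(25, 20), (-52, -46)],
  [(54, 45), (-52, -46)],
  [(-38, -35), (54, 45)]]

lemma segs_eq : ∀ i, (tree i).segs = sgs i := by decide

lemma leafList_eq : ∀ i, (tree i).leafList = lvs i := by decide

lemma tree_ok : ∀ i, (tree i).OK := by
  intro i
  fin_cases i
  all_goals
    refine ⟨by decide, by decide, by decide, by decide, by decide, by decide⟩

/-- The trees with numbers `i` and `j` meet exactly once. -/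
def PairOK (i j : Fin 10) : Prop :=
  ∃ a ∈ sgs i, ∃ b ∈ sgs j,
    (Cross a b ∨ ∃ p ∈ lvs i, p ∈ lvs j ∧ Share a b p) ∧
    ∀ a' ∈ sgs i, ∀ b' ∈ sgs j, (a', b') ≠ (a, b) → Sep a' b'

instance (i j : Fin 10) : Decidable (PairOK i j) := by unfold PairOK; infer_instance

lemma pairs_ok : ∀ i j : Fin 10, i ≠ j → PairOK i j := by decide

lemma off_ok : ∀ i : Fin 10, ∀ p ∈ points, p ∉ lvs i → ∀ s ∈ sgs i, orZ s.1 s.2 p ≠ 0 := by
  decide

lemma lvs_points : ∀ i : Fin 10, ∀ p ∈ lvs i, p ∈ points := by decide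

lemma card_points : points.card = 9 := by decide

lemma card_lvs : ∀ i : Fin 10, (lvs i).toFinset.card = if i = 0 then 3 else 2 := by decide

end Pool.Agent.Zk8.TH
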