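import Mathlib

/-!
Topological trees in the plane, pairwise intersecting exactly once.
-/

namespace Pool.Agent.Zk8.TH

open Set

/-- The Euclidean plane `ℝ²`. -/
abbrev Plane := EuclideanSpace ℝ (Fin 2)

/-- `A` is a Jordan arc joining `p` and `q`: the image of an injective continuous map of
`[0,1]` which maps `0` to `p` and `1` to `q`. -/
def IsArc (A : Set Plane) (p q : Plane) : Prop :=
  ∃ γ : unitInterval → Plane, Continuous γ ∧ Function.Injective γ ∧ γ 0 = p ∧ γ 1 = q ∧
    Set.range γ = A

/-- `T` is a topological tree and `L` is the set of its leaves: `T` is obtained by drawing a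
finite tree `G` with at least one edge (that is, with `k ≥ 2` vertices). The vertices are
placed at the distinct points `pos v`, each edge `e` is drawn as a Jordan arc `arc e` joining
its two endpoints, distinct edges share no points other than a common endpoint, and the
leaves are the points which are vertices of degree `1`. -/
def IsTopologicalTree (T L : Set Plane) : Prop :=
  ∃ (k : ℕ) (G : SimpleGraph (Fin k)) (pos : Fin k → Plane) (arc : Sym2 (Fin k) → Set Plane),
    2 ≤ k ∧ G.IsTree ∧ Function.Injective pos ∧
    (∀ u v, G.Adj u v → IsArc (arc s(u, v)) (pos u) (pos v)) ∧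
    (∀ e ∈ G.edgeSet, ∀ f ∈ G.edgeSet, e ≠ f → ∀ x ∈ arc e ∩ arc f,
      ∃ v, v ∈ e ∧ v ∈ f ∧ x = pos v) ∧
    T = ⋃ e ∈ G.edgeSet, arc e ∧
    L = pos '' {v | (G.neighborSet v).ncard = 1}

/-- `T` and `T'` cross properly at `x`: in an open neighbourhood of `x` they are two straight
lines through `x` with different directions. -/
def CrossProperly (T T' : Set Plane) (x : Plane) : Prop :=
  ∃ (u v : Plane) (U : Set Plane), LinearIndependent ℝ ![u, v] ∧ IsOpen U ∧ x ∈ U ∧
    T ∩ U = {y | ∃ c : ℝ, y = x + c • u} ∩ U ∧ T' ∩ U = {y | ∃ c : ℝ, y = x + c • v} ∩ U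

end Pool.Agent.Zk8.TH
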