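import Pool.Agent.Zk8.TH.Defs

namespace Pool.Agent.Zk8.TH

open Set

abbrev ZP := ℤ × ℤ
abbrev Seg := ZP × ZP

/-- The point of the plane with given integral coordinates. -/
noncomputable def pt (p : ZP) : Plane := !₂[(p.1 : ℝ), (p.2 : ℝ)]

@[simp] lemma pt_zero (p : ZP) : pt p 0 = (p.1 : ℝ) := by simp [pt]
@[simp] lemma pt_one (p : ZP) : pt p 1 = (p.2 : ℝ) := by simp [pt]

lemma plane_ext {x y : Plane} (h0 : x 0 = y 0) (h1 : x 1 = y 1) : x = y := by
  ext i; fin_cases i <;> assumption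

lemma pt_injective : Function.Injective pt := by
  intro p q h
  have h0 : pt p 0 = pt q 0 := by rw [h]
  have h1 : pt p 1 = pt q 1 := by rw [h]
  simp only [pt_zero, pt_one, Int.cast_inj] at h0 h1
  exact Prod.ext h0 h1

/-- The closed segment. -/
noncomputable def sg (s : Seg) : Set Plane := segment ℝ (pt s.1) (pt s.2)

/-- Union of a list of segments. -/
noncomputable def body (A : List Seg) : Set Plane := ⋃ s ∈ A, sg s

def orZ (p q r : ZP) : ℤ := (q.1 - p.1) * (r.2 - p.2) - (q.2 - p.2) * (r.1 - p.1)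

noncomputable def orR (p q r : Plane) : ℝ :=
  (q 0 - p 0) * (r 1 - p 1) - (q 1 - p 1) * (r 0 - p 0)

lemma orR_pt (p q r : ZP) : orR (pt p) (pt q) (pt r) = (orZ p q r : ℝ) := by
  simp [orR, orZ]

lemma orR_comb (p q r s : Plane) (a b : ℝ) (h : a + b = 1) :
    orR p q (a • r + b • s) = a * orR p q r + b * orR p q s := by
  obtain rfl : a = 1 - b := by linarith
  simp only [orR, PiLp.add_apply, PiLp.smul_apply, smul_eq_mul]
  ring

lemma orR_self1 (p q : Plane) : orR p q p = 0 := by simp [orR]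
lemma orR_self2 (p q : Plane) : orR p q q = 0 := by simp [orR]; ring

lemma orR_of_mem {p q z : Plane} (h : z ∈ segment ℝ p q) : orR p q z = 0 := by
  obtain ⟨a, b, _, _, hab, rfl⟩ := h
  rw [orR_comb p q p q a b hab, orR_self1, orR_self2]; ring

/-- The segments are strictly on one side of the line of the other. -/
def Sep (s t : Seg) : Prop :=
  0 < orZ s.1 s.2 t.1 * orZ s.1 s.2 t.2 ∨ 0 < orZ t.1 t.2 s.1 * orZ t.1 t.2 s.2

/-- The segments cross in their interiors. -/
def Cross (s t : Seg) : Prop :=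
  orZ s.1 s.2 t.1 * orZ s.1 s.2 t.2 < 0 ∧ orZ t.1 t.2 s.1 * orZ t.1 t.2 s.2 < 0

/-- The segments share the endpoint `p` and are not parallel. -/
def Share (s t : Seg) (p : ZP) : Prop :=
  (s.1 = p ∧ t.1 = p ∧ orZ p s.2 t.2 ≠ 0) ∨ (s.1 = p ∧ t.2 = p ∧ orZ p s.2 t.1 ≠ 0) ∨
  (s.2 = p ∧ t.1 = p ∧ orZ p s.1 t.2 ≠ 0) ∨ (s.2 = p ∧ t.2 = p ∧ orZ p s.1 t.1 ≠ 0)

instance (s t : Seg) : Decidable (Sep s t) := by unfold Sep; infer_instance
instance (s t : Seg) : Decidable (Cross s t) := by unfold Cross; infer_instance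
instance (s t : Seg) (p : ZP) : Decidable (Share s t p) := by unfold Share; infer_instance

lemma sep_aux {p q r s : Plane} (h : 0 < orR p q r * orR p q s) {z : Plane}
    (h1 : z ∈ segment ℝ p q) (h2 : z ∈ segment ℝ r s) : False := by
  have hz := orR_of_mem h1
  obtain ⟨a, b, ha, hb, hab, rfl⟩ := h2
  rw [orR_comb p q r s a b hab] at hz
  rcases pos_and_pos_or_neg_and_neg_of_mul_pos h with ⟨h3, h4⟩ | ⟨h3, h4⟩
  · rcases eq_or_lt_of_le ha with h5 | h5
    · have : b = 1 := by linarith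
      subst this; rw [← h5] at hz; simp at hz; linarith
    · have := mul_pos h5 h3
      have := mul_nonneg hb h4.le
      linarith
  · rcases eq_or_lt_of_le ha with h5 | h5
    · have : b = 1 := by linarith
      subst this; rw [← h5] at hz; simp at hz; linarith
    · have := mul_neg_of_pos_of_neg h5 h3
      have := mul_nonpos_of_nonneg_of_nonpos hb h4.le
      linarith

lemma Sep.disjoint {s t : Seg} (h : Sep s t) : sg s ∩ sg t = ∅ := by
  rw [Set.eq_empty_iff_forall_notMem]
  rintro z ⟨h1, h2⟩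
  rcases h with h | h
  · refine sep_aux (p := pt s.1) (q := pt s.2) (r := pt t.1) (s := pt t.2) ?_ h1 h2
    rw [orR_pt, orR_pt]; exact_mod_cast h
  · refine sep_aux (p := pt t.1) (q := pt t.2) (r := pt s.1) (s := pt s.2) ?_ h2 h1
    rw [orR_pt, orR_pt]; exact_mod_cast h

lemma share_aux {p q r : Plane} (h : orR p q r ≠ 0) : segment ℝ p q ∩ segment ℝ p r = {p} := by
  ext z
  constructor
  · rintro ⟨h1, h2⟩
    have hz := orR_of_mem h1
    obtain ⟨a, b, ha, hb, hab, rfl⟩ := h2
    rw [orR_comb p q p r a b hab, orR_self1] at hz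
    have hb0 : b = 0 := by
      rcases mul_eq_zero.1 (by linarith : b * orR p q r = 0) with h | h
      · exact h
      · contradiction
    have ha1 : a = 1 := by linarith
    simp [hb0, ha1]
  · rintro rfl
    exact ⟨left_mem_segment _ _ _, left_mem_segment _ _ _⟩

lemma Share.inter {s t : Seg} {p : ZP} (h : Share s t p) : sg s ∩ sg t = {pt p} := by
  rcases h with ⟨h1, h2, h3⟩ | ⟨h1, h2, h3⟩ | ⟨h1, h2, h3⟩ | ⟨h1, h2, h3⟩
  · unfold sg; rw [h1, h2]; apply share_aux; rw [orR_pt]; exact_mod_cast h3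
  · unfold sg; rw [h1, h2, segment_symm ℝ (pt t.1)]; apply share_aux; rw [orR_pt]; exact_mod_cast h3
  · unfold sg; rw [h1, h2, segment_symm ℝ (pt s.1)]; apply share_aux; rw [orR_pt]; exact_mod_cast h3
  · unfold sg; rw [h1, h2, segment_symm ℝ (pt s.1), segment_symm ℝ (pt t.1)]
    apply share_aux; rw [orR_pt]; exact_mod_cast h3

lemma cross_aux {p q r s : Plane} (h1 : orR p q r * orR p q s < 0)
    (h2 : orR r s p * orR r s q < 0) :
    ∃ x, segment ℝ p q ∩ segment ℝ r s = {x} ∧ x ∈ openSegment ℝ p q ∧ x ∈ openSegment ℝ r s := by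
  set α := orR p q r with hα
  set β := orR p q s with hβ
  set γ := orR r s p with hγ
  set δ := orR r s q with hδ
  have hrel : γ - δ = -(α - β) := by simp only [hα, hβ, hγ, hδ, orR]; ring
  have hαβ : α - β ≠ 0 := by
    intro h
    have : α = β := by linarith
    rw [this] at h1
    nlinarith [mul_self_nonneg β]
  have hγδ : γ - δ ≠ 0 := by rw [hrel]; exact neg_ne_zero.2 hαβ
  -- parameter on rs
  have key : ∀ a b : ℝ, a * b < 0 → 0 < a / (a - b) ∧ 0 < -b / (a - b) ∧
      a / (a - b) + -b / (a - b) = 1 := by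
    intro a b hab
    rcases mul_neg_iff.1 hab with ⟨ha, hb⟩ | ⟨ha, hb⟩
    · have : 0 < a - b := by linarith
      refine ⟨div_pos ha this, div_pos (by linarith) this, ?_⟩
      field_simp; ring
    · have : a - b < 0 := by linarith
      refine ⟨div_pos_of_neg_of_neg ha this, div_pos_of_neg_of_neg (by linarith) this, ?_⟩
      have h3 : a - b ≠ 0 := this.ne
      field_simp; ring
  obtain ⟨k1, k2, k3⟩ := key α β h1
  obtain ⟨l1, l2, l3⟩ := key γ δ h2
  set x : Plane := (-β / (α - β)) • r + (α / (α - β)) • s with hx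
  have hxeq : x = (-δ / (γ - δ)) • p + (γ / (γ - δ)) • q := by
    apply plane_ext
    · simp only [hx, PiLp.add_apply, PiLp.smul_apply, smul_eq_mul]
      rw [hrel]
      have : -(α - β) ≠ 0 := neg_ne_zero.2 hαβ
      field_simp
      simp only [hα, hβ, hγ, hδ, orR]; ring
    · simp only [hx, PiLp.add_apply, PiLp.smul_apply, smul_eq_mul]
      rw [hrel]
      have : -(α - β) ≠ 0 := neg_ne_zero.2 hαβ
      field_simp
      simp only [hα, hβ, hγ, hδ, orR]; ring
  have hx1 : x ∈ openSegment ℝ r s := ⟨_, _, k2, k1, by linarith, rfl⟩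
  have hx2 : x ∈ openSegment ℝ p q := ⟨_, _, l2, l1, by linarith, hxeq.symm⟩
  refine ⟨x, ?_, hx2, hx1⟩
  ext z
  constructor
  · rintro ⟨hz1, hz2⟩
    have hz := orR_of_mem hz1
    obtain ⟨a, b, ha, hb, hab, rfl⟩ := hz2
    rw [orR_comb p q r s a b hab, ← hα, ← hβ] at hz
    have hb' : b = α / (α - β) := by
      rw [eq_div_iff hαβ]
      have : a = 1 - b := by linarith
      rw [this] at hz; linarith
    have ha' : a = -β / (α - β) := by
      have : a = 1 - b := by linarith
      rw [this, hb']; field_simp; ring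
    rw [hx, ha', hb']; rfl
  · rintro rfl
    exact ⟨openSegment_subset_segment _ _ _ hx2, openSegment_subset_segment _ _ _ hx1⟩

lemma Cross.inter {s t : Seg} (h : Cross s t) :
    ∃ x, sg s ∩ sg t = {x} ∧ x ∈ openSegment ℝ (pt s.1) (pt s.2) ∧
      x ∈ openSegment ℝ (pt t.1) (pt t.2) := by
  apply cross_aux
  · rw [orR_pt, orR_pt]; exact_mod_cast h.1
  · rw [orR_pt, orR_pt]; exact_mod_cast h.2

lemma isClosed_sg (s : Seg) : IsClosed (sg s) := by
  have : sg s = (fun t : ℝ => AffineMap.lineMap (pt s.1) (pt s.2) t) '' Icc 0 1 := by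
    rw [sg, segment_eq_image_lineMap]
  rw [this]
  exact (isCompact_Icc.image (by fun_prop)).isClosed

/-- Local structure of a union of segments at an interior point of one of them. -/
lemma local_line (A : List Seg) (a : Seg) (ha : a ∈ A) (x : Plane)
    (hx : x ∈ openSegment ℝ (pt a.1) (pt a.2)) (hne : pt a.1 ≠ pt a.2)
    (hoth : ∀ b ∈ A, b ≠ a → x ∉ sg b) :
    ∃ U : Set Plane, IsOpen U ∧ x ∈ U ∧
      body A ∩ U = {y | ∃ c : ℝ, y = x + c • (pt a.2 - pt a.1)} ∩ U := by
  set p := pt a.1 with hp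
  set q := pt a.2 with hq
  set f : Plane → ℝ := fun y => (y 0 - p 0) * (q 0 - p 0) + (y 1 - p 1) * (q 1 - p 1) with hf
  set N : ℝ := (q 0 - p 0) ^ 2 + (q 1 - p 1) ^ 2 with hN
  have hNpos : 0 < N := by
    have : ¬ (q 0 - p 0 = 0 ∧ q 1 - p 1 = 0) := by
      rintro ⟨h0, h1⟩
      exact hne (plane_ext (by linarith) (by linarith))
    by_contra hneg
    have h0 : (q 0 - p 0) ^ 2 = 0 := by nlinarith [sq_nonneg (q 0 - p 0), sq_nonneg (q 1 - p 1)]
    have h1 : (q 1 - p 1) ^ 2 = 0 := by nlinarith [sq_nonneg (q 0 - p 0), sq_nonneg (q 1 - p 1)]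
    exact this ⟨by simpa using h0, by simpa using h1⟩
  have hfc : Continuous f := by
    simp only [hf]; fun_prop
  have hfl : ∀ t : ℝ, f (p + t • (q - p)) = t * N := by
    intro t
    simp only [hf, hN, PiLp.add_apply, PiLp.smul_apply, PiLp.sub_apply, smul_eq_mul]; ring
  obtain ⟨t, ht0, ht1, hxt⟩ : ∃ t : ℝ, 0 < t ∧ t < 1 ∧ x = p + t • (q - p) := by
    obtain ⟨c, d, hc, hd, hcd, rfl⟩ := hx
    refine ⟨d, hd, by linarith, ?_⟩
    have : c = 1 - d := by linarith
    subst this
    apply plane_ext <;>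
      simp only [PiLp.add_apply, PiLp.smul_apply, PiLp.sub_apply, smul_eq_mul] <;> ring
  have hseg : ∀ c : ℝ, p + c • (q - p) ∈ segment ℝ p q ↔ 0 ≤ c ∧ c ≤ 1 := by
    intro c
    constructor
    · rintro ⟨a', b', ha', hb', hab', h⟩
      have h3 : p + b' • (q - p) = p + c • (q - p) := by
        rw [← h]
        have : a' = 1 - b' := by linarith
        subst this
        apply plane_ext <;>
          simp only [PiLp.add_apply, PiLp.smul_apply, PiLp.sub_apply, smul_eq_mul] <;> ring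
      have h4 : b' * N = c * N := by rw [← hfl, ← hfl, h3]
      have h5 : b' = c := mul_right_cancel₀ hNpos.ne' h4
      constructor <;> linarith
    · rintro ⟨h0, h1⟩
      refine ⟨1 - c, c, by linarith, h0, by ring, ?_⟩
      apply plane_ext <;>
        simp only [PiLp.add_apply, PiLp.smul_apply, PiLp.sub_apply, smul_eq_mul] <;> ring
  refine ⟨{y | 0 < f y ∧ f y < N} ∩ (⋃ b ∈ A.toFinset.erase a, sg b)ᶜ, ?_, ?_, ?_⟩
  · apply IsOpen.inter
    · exact (isOpen_lt continuous_const hfc).inter (isOpen_lt hfc continuous_const)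
    · rw [isOpen_compl_iff]
      exact Set.Finite.isClosed_biUnion (Finset.finite_toSet _) (fun b _ => isClosed_sg b)
  · constructor
    · simp only [mem_setOf_eq]
      rw [hxt, hfl]
      constructor
      · positivity
      · nlinarith
    · simp only [mem_compl_iff, mem_iUnion, not_exists]
      intro b hb
      rw [Finset.mem_erase, List.mem_toFinset] at hb
      exact hoth b hb.2 hb.1
  · ext y
    constructor
    · rintro ⟨hy, hyU⟩
      refine ⟨?_, hyU⟩
      simp only [body, mem_iUnion] at hy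
      obtain ⟨b, hb, hyb⟩ := hy
      by_cases hba : b = a
      · subst hba
        obtain ⟨c, d, hc, hd, hcd, rfl⟩ := hyb
        refine ⟨d - t, ?_⟩
        rw [hxt]
        have : c = 1 - d := by linarith
        subst this
        apply plane_ext <;>
          simp only [PiLp.add_apply, PiLp.smul_apply, PiLp.sub_apply, smul_eq_mul, hp, hq] <;> ring
      · exfalso
        apply hyU.2
        simp only [mem_iUnion]
        exact ⟨b, by rw [Finset.mem_erase, List.mem_toFinset]; exact ⟨hba, hb⟩, hyb⟩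
    · rintro ⟨⟨c, hc⟩, hyU⟩
      refine ⟨?_, hyU⟩
      simp only [body, mem_iUnion]
      refine ⟨a, ha, ?_⟩
      have hy : y = p + (t + c) • (q - p) := by
        rw [hc, hxt]
        apply plane_ext <;>
          simp only [PiLp.add_apply, PiLp.smul_apply, PiLp.sub_apply, smul_eq_mul] <;> ring
      have h1 := hyU.1
      simp only [mem_setOf_eq] at h1
      rw [hy, hfl] at h1
      rw [sg, hy]
      rw [hseg]
      constructor
      · by_contra h; push_neg at h; nlinarith [h1.1]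
      · by_contra h; push_neg at h; nlinarith [h1.2]

lemma body_inter (A B : List Seg) (a b : Seg) (ha : a ∈ A) (hb : b ∈ B)
    (hoth : ∀ a' ∈ A, ∀ b' ∈ B, (a', b') ≠ (a, b) → Sep a' b') :
    body A ∩ body B = sg a ∩ sg b := by
  ext z
  simp only [body, mem_inter_iff, mem_iUnion]
  constructor
  · rintro ⟨⟨a', ha', h1⟩, ⟨b', hb', h2⟩⟩
    by_cases h : (a', b') = (a, b)
    · simp only [Prod.mk.injEq] at h
      rw [← h.1, ← h.2]; exact ⟨h1, h2⟩
    · exfalso
      have := (hoth a' ha' b' hb' h).disjoint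
      rw [Set.eq_empty_iff_forall_notMem] at this
      exact this z ⟨h1, h2⟩
  · rintro ⟨h1, h2⟩
    exact ⟨⟨a, ha, h1⟩, ⟨b, hb, h2⟩⟩

lemma li_of_cross {a b : Seg} (h : Cross a b) :
    LinearIndependent ℝ ![pt a.2 - pt a.1, pt b.2 - pt b.1] := by
  have hne : orZ a.1 a.2 b.1 - orZ a.1 a.2 b.2 ≠ 0 := by
    intro h0
    have h1 := h.1
    have : orZ a.1 a.2 b.1 = orZ a.1 a.2 b.2 := by linarith
    rw [this] at h1
    nlinarith [mul_self_nonneg (orZ a.1 a.2 b.2)]
  have hdet : ((a.2.1 : ℝ) - a.1.1) * (b.2.2 - b.1.2) - (a.2.2 - a.1.2) * (b.2.1 - b.1.1) ≠ 0 := by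
    intro h0
    apply hne
    have : ((orZ a.1 a.2 b.1 - orZ a.1 a.2 b.2 : ℤ) : ℝ) = 0 := by
      simp only [orZ]; push_cast; linarith
    exact_mod_cast this
  rw [LinearIndependent.pair_iff]
  intro s t hst
  have h0 : (s • (pt a.2 - pt a.1) + t • (pt b.2 - pt b.1)) 0 = (0 : Plane) 0 := by rw [hst]
  have h1 : (s • (pt a.2 - pt a.1) + t • (pt b.2 - pt b.1)) 1 = (0 : Plane) 1 := by rw [hst]
  simp only [PiLp.add_apply, PiLp.smul_apply, PiLp.sub_apply, smul_eq_mul, pt_zero, pt_one,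
    PiLp.zero_apply] at h0 h1
  constructor
  · have : s * (((a.2.1 : ℝ) - a.1.1) * (b.2.2 - b.1.2) - (a.2.2 - a.1.2) * (b.2.1 - b.1.1)) = 0 := by
      linear_combination (↑b.2.2 - ↑b.1.2 : ℝ) * h0 - (↑b.2.1 - ↑b.1.1 : ℝ) * h1
    rcases mul_eq_zero.1 this with h | h
    · exact h
    · contradiction
  · have : t * (((a.2.1 : ℝ) - a.1.1) * (b.2.2 - b.1.2) - (a.2.2 - a.1.2) * (b.2.1 - b.1.1)) = 0 := by
      linear_combination (↑a.2.1 - ↑a.1.1 : ℝ) * h1 - (↑a.2.2 - ↑a.1.2 : ℝ) * h0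
    rcases mul_eq_zero.1 this with h | h
    · exact h
    · contradiction

lemma Cross.symm {a b : Seg} (h : Cross a b) : Cross b a := ⟨h.2, h.1⟩

lemma Cross.ne {a b : Seg} (h : Cross a b) : pt a.1 ≠ pt a.2 := by
  intro h0
  have := pt_injective h0
  have h2 := h.2
  rw [this] at h2
  nlinarith [mul_self_nonneg (orZ b.1 b.2 a.2)]

lemma cross_bodies (A B : List Seg) (a b : Seg) (ha : a ∈ A) (hb : b ∈ B)
    (hoth : ∀ a' ∈ A, ∀ b' ∈ B, (a', b') ≠ (a, b) → Sep a' b') (h : Cross a b) :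
    ∃ x, body A ∩ body B = {x} ∧ CrossProperly (body A) (body B) x := by
  obtain ⟨x, hx, hxa, hxb⟩ := h.inter
  have hxa' : x ∈ sg a := openSegment_subset_segment _ _ _ hxa
  have hxb' : x ∈ sg b := openSegment_subset_segment _ _ _ hxb
  refine ⟨x, by rw [body_inter A B a b ha hb hoth, hx], ?_⟩
  obtain ⟨U, hU, hxU, hAU⟩ := local_line A a ha x hxa h.ne (by
    intro a' ha' hne hmem
    have := (hoth a' ha' b hb (by simpa using hne)).disjoint
    rw [Set.eq_empty_iff_forall_notMem] at this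
    exact this x ⟨hmem, hxb'⟩)
  obtain ⟨W, hW, hxW, hBW⟩ := local_line B b hb x hxb h.symm.ne (by
    intro b' hb' hne hmem
    have := (hoth a ha b' hb' (by simpa using hne)).disjoint
    rw [Set.eq_empty_iff_forall_notMem] at this
    exact this x ⟨hxa', hmem⟩)
  refine ⟨_, _, U ∩ W, li_of_cross h, hU.inter hW, ⟨hxU, hxW⟩, ?_, ?_⟩
  · rw [← Set.inter_assoc, hAU, Set.inter_assoc]
  · rw [Set.inter_comm U W, ← Set.inter_assoc, hBW, Set.inter_assoc]

end Pool.Agent.Zk8.TH
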