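import Pool.Agent.Zk8.TH.Data

namespace Pool.Agent.Zk8.TH

open Set

/-- The trees as sets. -/
noncomputable def treeSet (i : Fin 10) : Set Plane := body (sgs i)

/-- The leaves as sets. -/
noncomputable def leafSet (i : Fin 10) : Set Plane := pt '' {p | p ∈ lvs i}

/-- The points. -/
noncomputable def pointSet : Finset Plane := points.map ⟨pt, pt_injective⟩

lemma isTree (i : Fin 10) : IsTopologicalTree (treeSet i) (leafSet i) := by
  have h := Poly.isTopologicalTree (tree_ok i)
  rw [segs_eq, leafList_eq] at h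
  have h2 : leafSet i = {x | ∃ p ∈ lvs i, x = pt p} := by
    ext x
    simp only [leafSet, mem_image, mem_setOf_eq]
    constructor
    · rintro ⟨p, hp, rfl⟩; exact ⟨p, hp, rfl⟩
    · rintro ⟨p, hp, rfl⟩; exact ⟨p, hp, rfl⟩
  rw [h2]
  exact h

lemma not_mem_of_orZ {s : Seg} {p : ZP} (h : orZ s.1 s.2 p ≠ 0) : pt p ∉ sg s := by
  intro hmem
  have := orR_of_mem hmem
  rw [orR_pt] at this
  exact h (by exact_mod_cast this)

lemma leafSet_eq (i : Fin 10) : leafSet i = treeSet i ∩ (pointSet : Set Plane) := by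
  ext x
  constructor
  · rintro ⟨p, hp, rfl⟩
    constructor
    · -- a leaf is in the tree
      have h := isTree i
      obtain ⟨k, G, pos, arc, hk, hG, _, harc, _, hT, hL⟩ := h
      have hx : pt p ∈ leafSet i := ⟨p, hp, rfl⟩
      rw [hL] at hx
      obtain ⟨v, hv, hvx⟩ := hx
      simp only [mem_setOf_eq] at hv
      have hne : (G.neighborSet v).Nonempty := by
        rw [Set.nonempty_iff_ne_empty]
        intro h0
        rw [h0] at hv
        simp at hv
      obtain ⟨w, hw⟩ := hne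
      rw [hT]
      simp only [mem_iUnion]
      refine ⟨s(v, w), hw, ?_⟩
      obtain ⟨γ, _, _, h0, _, hr⟩ := harc v w hw
      rw [← hr, ← hvx, ← h0]
      exact mem_range_self _
    · rw [pointSet, Finset.coe_map]
      exact ⟨p, lvs_points i p hp, rfl⟩
  · rintro ⟨h1, h2⟩
    rw [pointSet, Finset.coe_map] at h2
    obtain ⟨p, hp, rfl⟩ := h2
    by_contra hno
    have hp' : p ∉ lvs i := fun h => hno ⟨p, h, rfl⟩
    simp only [treeSet, body, mem_iUnion] at h1
    obtain ⟨s, hs, hps⟩ := h1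
    exact not_mem_of_orZ (off_ok i p hp hp' s hs) hps

lemma ncard_leafSet (i : Fin 10) : (leafSet i).ncard = if i = 0 then 3 else 2 := by
  rw [leafSet, Set.ncard_image_of_injective _ pt_injective, ← card_lvs i,
    ← Set.ncard_coe_finset]
  congr 1
  ext p
  simp

lemma meet (i j : Fin 10) (hij : i ≠ j) :
    ∃ x, treeSet i ∩ treeSet j = {x} ∧
      (x ∈ leafSet i ∩ leafSet j ∨ CrossProperly (treeSet i) (treeSet j) x) := by
  obtain ⟨a, ha, b, hb, hab, hoth⟩ := pairs_ok i j hij
  rcases hab with hc | ⟨p, hpi, hpj, hs⟩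
  · obtain ⟨x, hx, hcr⟩ := cross_bodies (sgs i) (sgs j) a b ha hb hoth hc
    exact ⟨x, hx, Or.inr hcr⟩
  · refine ⟨pt p, ?_, Or.inl ⟨⟨p, hpi, rfl⟩, ⟨p, hpj, rfl⟩⟩⟩
    rw [treeSet, treeSet, body_inter _ _ a b ha hb hoth, hs.inter]

lemma card_pointSet : pointSet.card = 9 := by
  rw [pointSet, Finset.card_map, card_points]

end Pool.Agent.Zk8.TH
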