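import Pool.Agent.Zk8.TH.Geom

namespace Pool.Agent.Zk8.TH

open Set

/-- A polygonal drawing of a graph with straight edges at integral points. -/
structure Poly where
  k : ℕ
  pos : Fin k → ZP
  E : List (Fin k × Fin k)

namespace Poly

variable (D : Poly)

/-- The abstract graph. -/
def G : SimpleGraph (Fin D.k) := SimpleGraph.fromRel (fun u v => (u, v) ∈ D.E)

instance : DecidableRel D.G.Adj := by
  unfold G; infer_instance

/-- The segments of the drawing. -/
def segs : List Seg := D.E.map (fun e => (D.pos e.1, D.pos e.2))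

/-- The leaves of the drawing. -/
def leafList : List ZP :=
  ((List.finRange D.k).filter (fun v => ((List.finRange D.k).filter (fun w => D.G.Adj v w)).length = 1)).map D.pos

/-- Two distinct edges meet in a common endpoint only. -/
def EdgesOK (e f : Fin D.k × Fin D.k) : Prop :=
  s(e.1, e.2) ≠ s(f.1, f.2) →
      Sep (D.pos e.1, D.pos e.2) (D.pos f.1, D.pos f.2) ∨
      ∃ w, (w = e.1 ∨ w = e.2) ∧ (w = f.1 ∨ w = f.2) ∧
        Share (D.pos e.1, D.pos e.2) (D.pos f.1, D.pos f.2) (D.pos w)

instance (e f : Fin D.k × Fin D.k) : Decidable (D.EdgesOK e f) := by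
  unfold EdgesOK; infer_instance

/-- The conditions to be checked. -/
structure OK : Prop where
  two : 2 ≤ D.k
  conn : D.G.Connected
  card : D.G.edgeFinset.card + 1 = D.k
  inj : ∀ u v, D.pos u = D.pos v → u = v
  loop : ∀ e ∈ D.E, e.1 ≠ e.2
  edges : ∀ e ∈ D.E, ∀ f ∈ D.E, D.EdgesOK e f

end Poly

lemma isArc_segment {p q : Plane} (h : p ≠ q) : IsArc (segment ℝ p q) p q := by
  refine ⟨fun t => AffineMap.lineMap p q (t : ℝ), by fun_prop, ?_, by simp, by simp, ?_⟩
  · intro s t hst
    exact Subtype.ext (AffineMap.lineMap_injective ℝ h hst)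
  · rw [segment_eq_image_lineMap]
    ext z
    simp only [mem_range, mem_image]
    constructor
    · rintro ⟨t, rfl⟩; exact ⟨t, t.2, rfl⟩
    · rintro ⟨t, ht, rfl⟩; exact ⟨⟨t, ht⟩, rfl⟩

/-- The arc of an edge. -/
noncomputable def arcOf {k : ℕ} (pos : Fin k → ZP) : Sym2 (Fin k) → Set Plane :=
  Sym2.lift ⟨fun u v => segment ℝ (pt (pos u)) (pt (pos v)), fun _ _ => segment_symm ℝ _ _⟩

lemma arcOf_mk {k : ℕ} (pos : Fin k → ZP) (u v : Fin k) :
    arcOf pos s(u, v) = segment ℝ (pt (pos u)) (pt (pos v)) := rfl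

namespace Poly

variable {D : Poly}

lemma exists_edge {e : Sym2 (Fin D.k)} (he : e ∈ D.G.edgeSet) :
    ∃ f ∈ D.E, e = s(f.1, f.2) := by
  induction e using Sym2.ind with
  | _ u v =>
    rw [SimpleGraph.mem_edgeSet, G, SimpleGraph.fromRel_adj] at he
    rcases he.2 with h | h
    · exact ⟨_, h, rfl⟩
    · exact ⟨_, h, Sym2.eq_swap⟩

theorem isTopologicalTree (h : D.OK) :
    IsTopologicalTree (body D.segs) {x | ∃ p ∈ D.leafList, x = pt p} := by
  obtain ⟨h1, h2, h3, h4, h5, h6⟩ := h
  refine ⟨D.k, D.G, fun v => pt (D.pos v), arcOf D.pos, h1, ?_, ?_, ?_, ?_, ?_, ?_⟩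
  · rw [SimpleGraph.isTree_iff_connected_and_card]
    refine ⟨h2, ?_⟩
    rw [Nat.card_eq_fintype_card, Nat.card_eq_fintype_card, ← SimpleGraph.edgeFinset_card, h3,
      Fintype.card_fin]
  · intro u v huv
    exact h4 _ _ (pt_injective huv)
  · intro u v huv
    rw [arcOf_mk]
    apply isArc_segment
    intro h
    have := h4 _ _ (pt_injective h)
    exact huv.ne this
  · intro e he f hf hef x hx
    obtain ⟨e', he', rfl⟩ := exists_edge he
    obtain ⟨f', hf', rfl⟩ := exists_edge hf
    rw [arcOf_mk, arcOf_mk] at hx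
    rcases h6 e' he' f' hf' hef with h | ⟨w, hw1, hw2, h⟩
    · exfalso
      have := h.disjoint
      rw [Set.eq_empty_iff_forall_notMem] at this
      exact this x hx
    · refine ⟨w, ?_, ?_, ?_⟩
      · rw [Sym2.mem_iff]; exact hw1
      · rw [Sym2.mem_iff]; exact hw2
      · have := h.inter
        have hx' : x ∈ ({pt (D.pos w)} : Set Plane) := by rw [← this]; exact hx
        exact hx'
  · ext z
    simp only [body, segs, mem_iUnion, List.mem_map]
    constructor
    · rintro ⟨s, ⟨e, he, rfl⟩, hz⟩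
      refine ⟨s(e.1, e.2), ?_, hz⟩
      rw [SimpleGraph.mem_edgeSet, G, SimpleGraph.fromRel_adj]
      exact ⟨h5 e he, Or.inl he⟩
    · rintro ⟨e, he, hz⟩
      obtain ⟨e', he', rfl⟩ := exists_edge he
      exact ⟨_, ⟨e', he', rfl⟩, hz⟩
  · ext z
    simp only [leafList, List.mem_map, List.mem_filter, List.mem_finRange, true_and,
      mem_setOf_eq, mem_image, decide_eq_true_eq]
    have key : ∀ v : Fin D.k, ((List.finRange D.k).filter (fun w => D.G.Adj v w)).length = 1 ↔
        (D.G.neighborSet v).ncard = 1 := by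
      intro v
      have : (D.G.neighborSet v).ncard =
          ((List.finRange D.k).filter (fun w => D.G.Adj v w)).length := by
        have hs : D.G.neighborSet v =
            (((List.finRange D.k).filter (fun w => D.G.Adj v w)).toFinset : Set (Fin D.k)) := by
          ext w
          simp [SimpleGraph.mem_neighborSet]
        rw [hs, Set.ncard_coe_finset, List.toFinset_card_of_nodup]
        exact (List.nodup_finRange _).filter _
      rw [this]
    constructor
    · rintro ⟨p, ⟨v, hv, rfl⟩, rfl⟩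
      exact ⟨v, (key v).1 hv, rfl⟩
    · rintro ⟨v, hv, rfl⟩
      exact ⟨_, ⟨v, (key v).2 hv, rfl⟩, rfl⟩

end Poly

end Pool.Agent.Zk8.TH
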